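import Mathlib

/-!
# Project BR, module TRAP: trapezoid functions (Mathlib only)
-/

set_option autoImplicit false

open Finset Filter Topology

namespace Pool.Agent.H58.BR

noncomputable section

/-- `e(x)` -/
def e0 (x : ℝ) : ℂ := Complex.exp (2 * Real.pi * x * Complex.I)

/-- half of the periodic Bernoulli polynomial `B₂` -/
def F (x : ℝ) : ℝ := ((Int.fract x) ^ 2 - Int.fract x + 1 / 6) / 2

theorem norm_e0 (x : ℝ) : ‖e0 x‖ = 1 := by
  unfold e0
  have h1 : (2 * (Real.pi : ℂ) * (x : ℂ) * Complex.I) = ((2 * Real.pi * x : ℝ) : ℂ) * Complex.I := by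
    push_cast
    ring
  rw [h1, Complex.norm_exp_ofReal_mul_I]

theorem e0_add (x y : ℝ) : e0 (x + y) = e0 x * e0 y := by
  unfold e0
  rw [← Complex.exp_add]
  congr 1
  push_cast
  ring

theorem e0_re (x : ℝ) : (e0 x).re = Real.cos (2 * Real.pi * x) := by
  unfold e0
  have h1 : (2 * (Real.pi : ℂ) * (x : ℂ) * Complex.I) = ((2 * Real.pi * x : ℝ) : ℂ) * Complex.I := by
    push_cast
    ring
  rw [h1, Complex.exp_ofReal_mul_I_re]

theorem hs_right {f : ℕ → ℝ} {a b : ℝ} (h : HasSum f a) (e : b = a) :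
    HasSum f b := e ▸ h

theorem hs_fun {f g : ℕ → ℝ} {a : ℝ} (h : HasSum f a) (e : ∀ n, g n = f n) :
    HasSum g a := by
  have : g = f := funext e
  rw [this]
  exact h

theorem cos_fract (k : ℕ) (x : ℝ) :
    Real.cos (2 * Real.pi * k * Int.fract x) = Real.cos (2 * Real.pi * k * x) := by
  have h : 2 * Real.pi * k * Int.fract x =
      2 * Real.pi * k * x - ((k : ℤ) * ⌊x⌋ : ℤ) * (2 * Real.pi) := by
    rw [← Int.self_sub_floor]
    push_cast
    ring
  rw [h, Real.cos_sub_int_mul_two_pi]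

theorem hasSum_F (x : ℝ) :
    HasSum (fun h : ℕ => 1 / (2 * Real.pi ^ 2) * (1 / ((h : ℝ) + 1) ^ 2 *
      Real.cos (2 * Real.pi * ((h : ℝ) + 1) * x))) (F x) := by
  have h1 := hasSum_one_div_nat_pow_mul_cos (k := 1) one_ne_zero
    (x := Int.fract x) ⟨Int.fract_nonneg x, (Int.fract_lt_one x).le⟩
  have h2 := (hasSum_nat_add_iff' 1).2 h1
  have hB : (Polynomial.map (algebraMap ℚ ℝ) (Polynomial.bernoulli (2 * 1))).eval (Int.fract x) =
      (Int.fract x) ^ 2 - Int.fract x + 1 / 6 := by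
    have hb : Polynomial.bernoulli 2 =
        Polynomial.X ^ 2 - Polynomial.X + Polynomial.C (1 / 6 : ℚ) := by
      simp only [Polynomial.bernoulli, Finset.sum_range_succ, Finset.sum_range_zero]
      have b1 : bernoulli 1 = -1 / 2 := bernoulli_one
      have b2 : bernoulli 2 = 1 / 6 := by
        rw [bernoulli_eq_bernoulli'_of_ne_one (by norm_num), bernoulli'_two]
      simp only [bernoulli_zero, b1, b2]
      simp only [← Polynomial.C_mul_X_pow_eq_monomial]
      norm_num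
      ring_nf
    rw [show 2 * 1 = 2 from rfl, hb]
    simp
  rw [hB] at h2
  have h3 := h2.mul_left (1 / (2 * Real.pi ^ 2))
  have hpi : Real.pi ≠ 0 := Real.pi_ne_zero
  have e1 : (fun h : ℕ => 1 / (2 * Real.pi ^ 2) * (1 / ((h : ℝ) + 1) ^ 2 *
      Real.cos (2 * Real.pi * ((h : ℝ) + 1) * x))) = fun i : ℕ => 1 / (2 * Real.pi ^ 2) *
      (1 / ((i + 1 : ℕ) : ℝ) ^ (2 * 1) *
        Real.cos (2 * Real.pi * ((i + 1 : ℕ) : ℝ) * Int.fract x)) := by
    funext h
    rw [cos_fract (h + 1) x]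
    push_cast
    rfl
  rw [e1]
  refine hs_right h3 ?_
  unfold F
  norm_num [Nat.factorial]
  field_simp

/-- The mean of the sawtooth over an interval of length `Δ`. -/
theorem F_sub_of_le {x Δ : ℝ} (hΔ : 0 < Δ) (h : Δ ≤ Int.fract x) :
    F x - F (x - Δ) = Δ * (Int.fract x - 1 / 2 - Δ / 2) := by
  have h1 : Int.fract (x - Δ) = Int.fract x - Δ := by
    rw [Int.fract_eq_iff]
    refine ⟨by linarith, by linarith [Int.fract_lt_one x], ⌊x⌋, ?_⟩
    rw [← Int.self_sub_floor]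
    ring
  unfold F
  rw [h1]
  ring

theorem abs_F_sub {x Δ : ℝ} (hΔ : 0 < Δ) (hΔ1 : Δ ≤ 1) : |F x - F (x - Δ)| ≤ Δ / 2 := by
  have h0 := Int.fract_nonneg x
  have h1 := Int.fract_lt_one x
  rcases le_or_gt Δ (Int.fract x) with h | h
  · rw [F_sub_of_le hΔ h, abs_mul, abs_of_pos hΔ]
    have : |Int.fract x - 1 / 2 - Δ / 2| ≤ 1 / 2 := by
      rw [abs_le]
      constructor <;> linarith
    nlinarith
  · have h2 : Int.fract (x - Δ) = Int.fract x - Δ + 1 := by
      rw [Int.fract_eq_iff]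
      refine ⟨by linarith, by linarith, ⌊x⌋ - 1, ?_⟩
      rw [← Int.self_sub_floor]
      push_cast
      ring
    have h3 : F x - F (x - Δ) = -((1 - Δ) * (2 * Int.fract x - Δ) / 2) := by
      unfold F
      rw [h2]
      ring
    rw [h3, abs_neg, abs_div, abs_mul, abs_of_nonneg (by linarith : (0 : ℝ) ≤ 1 - Δ),
      abs_of_pos (by norm_num : (0 : ℝ) < 2)]
    have h4 : |2 * Int.fract x - Δ| ≤ Δ := by
      rw [abs_le]
      constructor <;> linarith
    have h5 : (1 - Δ) * |2 * Int.fract x - Δ| ≤ 1 * Δ :=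
      mul_le_mul (by linarith) h4 (abs_nonneg _) (by norm_num)
    linarith

/-- The indicator function of an arc by sawtooth functions. -/
theorem ind_eq {x v : ℝ} (hv0 : 0 ≤ v) (hv1 : v ≤ 1) :
    (if Int.fract x < v then (1 : ℝ) else 0) = v + Int.fract (x - v) - Int.fract x := by
  have h0 := Int.fract_nonneg x
  have h1 := Int.fract_lt_one x
  split_ifs with h
  · have h2 : Int.fract (x - v) = Int.fract x - v + 1 := by
      rw [Int.fract_eq_iff]
      refine ⟨by linarith, by linarith, ⌊x⌋ - 1, ?_⟩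
      rw [← Int.self_sub_floor]
      push_cast
      ring
    rw [h2]
    ring
  · have h2 : Int.fract (x - v) = Int.fract x - v := by
      rw [Int.fract_eq_iff]
      refine ⟨by linarith, by linarith, ⌊x⌋, ?_⟩
      rw [← Int.self_sub_floor]
      ring
    rw [h2]
    ring

/-- `Δ (ψ - v)` -/
def D (v Δ x : ℝ) : ℝ := (F (x - v) - F (x - v - Δ)) - (F x - F (x - Δ))

theorem ind_sub_D {x v Δ : ℝ} (hv0 : 0 ≤ v) (hv1 : v ≤ 1) (hΔ : 0 < Δ) (hΔ1 : Δ ≤ 1) :
    |(if Int.fract x < v then (1 : ℝ) else 0) - v - D v Δ x / Δ| ≤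
      if Int.fract x < Δ ∨ Int.fract (x - v) < Δ then 3 else 0 := by
  split_ifs with h1 h2 h2
  all_goals try
    (have a1 := abs_F_sub (x := x) hΔ hΔ1
     have a2 := abs_F_sub (x := x - v) hΔ hΔ1
     have a3 : |D v Δ x / Δ| ≤ 1 := by
       rw [abs_div, abs_of_pos hΔ, div_le_one hΔ]
       unfold D
       refine (abs_sub _ _).trans ?_
       linarith)
  · rw [abs_le] at a3 ⊢
    constructor <;> linarith [a3.1, a3.2]
  · push Not at h2
    have h3 := ind_eq (x := x) hv0 hv1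
    rw [if_pos h1] at h3
    have h4 : D v Δ x / Δ = 1 - v := by
      unfold D
      rw [F_sub_of_le hΔ h2.1, F_sub_of_le hΔ h2.2]
      field_simp
      linarith
    rw [h4]
    simp
  · rw [abs_le] at a3 ⊢
    constructor <;> linarith [a3.1, a3.2]
  · push Not at h2
    have h3 := ind_eq (x := x) hv0 hv1
    rw [if_neg h1] at h3
    have h4 : D v Δ x / Δ = - v := by
      unfold D
      rw [F_sub_of_le hΔ h2.1, F_sub_of_le hΔ h2.2]
      field_simp
      linarith
    rw [h4]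
    simp

theorem abs_sum_cos_le (I : Finset ℕ) (w : ℕ → ℝ) (α c : ℝ) (k : ℝ) :
    |∑ n ∈ I, w n * Real.cos (2 * Real.pi * k * (α * n + c))| ≤
      ‖∑ n ∈ I, (w n : ℂ) * e0 (k * α * n)‖ := by
  have h1 : ∑ n ∈ I, w n * Real.cos (2 * Real.pi * k * (α * n + c)) =
      (e0 (k * c) * ∑ n ∈ I, (w n : ℂ) * e0 (k * α * n)).re := by
    rw [Finset.mul_sum, Complex.re_sum]
    refine Finset.sum_congr rfl fun n _ => ?_
    have h2 : e0 (k * c) * ((w n : ℂ) * e0 (k * α * n)) =
        (w n : ℂ) * e0 (k * (α * n + c)) := by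
      rw [show k * (α * n + c) = k * c + k * α * n by ring, e0_add]
      ring
    rw [h2, Complex.re_ofReal_mul, e0_re]
    congr 2
    ring
  rw [h1]
  refine (Complex.abs_re_le_norm _).trans ?_
  rw [norm_mul, norm_e0, one_mul]

theorem trap (I : Finset ℕ) (w : ℕ → ℝ) (α β v Δ : ℝ) (hv0 : 0 ≤ v) (hv1 : v ≤ 1) (hΔ : 0 < Δ)
    (hΔ1 : Δ ≤ 1) :
    |∑ n ∈ I.filter (fun n : ℕ => Int.fract (α * n + β) < v), w n - v * ∑ n ∈ I, w n| ≤
      1 / Δ * ∑' h : ℕ, ‖∑ n ∈ I, (w n : ℂ) * e0 (((h : ℝ) + 1) * α * n)‖ / ((h : ℝ) + 1) ^ 2 +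
      3 * ∑ n ∈ I.filter (fun n : ℕ => Int.fract (α * n + β) < Δ ∨
        Int.fract (α * n + β - v) < Δ), |w n| := by
  set S : ℕ → ℝ := fun h => ‖∑ n ∈ I, (w n : ℂ) * e0 (((h : ℝ) + 1) * α * n)‖ with hS
  -- the Fourier side
  have hsq : Summable fun h : ℕ => 1 / ((h : ℝ) + 1) ^ 2 := by
    have h1 : Summable fun h : ℕ => 1 / (h : ℝ) ^ 2 :=
      Real.summable_one_div_nat_pow.2 (by norm_num)
    have h2 := (summable_nat_add_iff 1).2 h1
    refine h2.congr fun h => ?_
    push_cast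
    rfl
  have hSb : ∀ h, S h ≤ ∑ n ∈ I, |w n| := by
    intro h
    refine (norm_sum_le _ _).trans (Finset.sum_le_sum fun n _ => ?_)
    rw [norm_mul, norm_e0, mul_one, Complex.norm_real, Real.norm_eq_abs]
  have hsum : Summable fun h : ℕ => S h / ((h : ℝ) + 1) ^ 2 := by
    refine Summable.of_nonneg_of_le (fun h => by positivity) (fun h => ?_)
      (hsq.mul_left (∑ n ∈ I, |w n|))
    rw [mul_one_div]
    exact div_le_div_of_nonneg_right (hSb h) (by positivity)
  have hF : ∀ c : ℝ, HasSum (fun h : ℕ => 1 / (2 * Real.pi ^ 2) * (1 / ((h : ℝ) + 1) ^ 2 *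
      ∑ n ∈ I, w n * Real.cos (2 * Real.pi * ((h : ℝ) + 1) * (α * n + c))))
      (∑ n ∈ I, w n * F (α * n + c)) := by
    intro c
    have h1 := hasSum_sum (s := I) fun n _ => (hasSum_F (α * n + c)).mul_left (w n)
    refine hs_fun h1 fun h => ?_
    rw [Finset.mul_sum, Finset.mul_sum]
    refine Finset.sum_congr rfl fun n _ => ?_
    ring
  have hpi : 3 < Real.pi := Real.pi_gt_three
  have hFb : ∀ c : ℝ, |∑ n ∈ I, w n * F (α * n + c)| ≤
      1 / (2 * Real.pi ^ 2) * ∑' h : ℕ, S h / ((h : ℝ) + 1) ^ 2 := by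
    intro c
    have h1 := (hsum.hasSum).mul_left (1 / (2 * Real.pi ^ 2))
    have h2 := (hF c).norm_le_of_bounded h1 (fun h => ?_)
    · simpa using h2
    · rw [Real.norm_eq_abs, abs_mul, abs_mul, abs_of_pos (by positivity : 0 < 1 / (2 * Real.pi ^ 2)),
        abs_of_pos (by positivity : 0 < 1 / ((h : ℝ) + 1) ^ 2)]
      refine mul_le_mul_of_nonneg_left ?_ (by positivity)
      rw [one_div_mul_eq_div]
      exact div_le_div_of_nonneg_right (abs_sum_cos_le I w α c ((h : ℝ) + 1)) (by positivity)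
  have hT0 : 0 ≤ ∑' h : ℕ, S h / ((h : ℝ) + 1) ^ 2 := tsum_nonneg fun h => by positivity
  have hD : |∑ n ∈ I, w n * D v Δ (α * n + β)| ≤ ∑' h : ℕ, S h / ((h : ℝ) + 1) ^ 2 := by
    have h1 : ∑ n ∈ I, w n * D v Δ (α * n + β) =
        (∑ n ∈ I, w n * F (α * n + (β - v)) - ∑ n ∈ I, w n * F (α * n + (β - v - Δ))) -
        (∑ n ∈ I, w n * F (α * n + β) - ∑ n ∈ I, w n * F (α * n + (β - Δ))) := by
      rw [← Finset.sum_sub_distrib, ← Finset.sum_sub_distrib, ← Finset.sum_sub_distrib]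
      refine Finset.sum_congr rfl fun n _ => ?_
      unfold D
      rw [show α * (n : ℝ) + (β - v) = α * n + β - v by ring,
        show α * (n : ℝ) + (β - v - Δ) = α * n + β - v - Δ by ring,
        show α * (n : ℝ) + (β - Δ) = α * n + β - Δ by ring]
      ring
    rw [h1]
    have b1 := hFb (β - v)
    have b2 := hFb (β - v - Δ)
    have b3 := hFb β
    have b4 := hFb (β - Δ)
    have b5 : 1 / (2 * Real.pi ^ 2) ≤ 1 / 4 := by
      apply one_div_le_one_div_of_le (by norm_num)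
      nlinarith
    have b6 := mul_le_mul_of_nonneg_right b5 hT0
    rw [abs_le] at b1 b2 b3 b4 ⊢
    constructor <;> linarith [b1.1, b1.2, b2.1, b2.2, b3.1, b3.2, b4.1, b4.2]
  -- the difference of the indicator and the trapezoid
  have hmain : ∑ n ∈ I.filter (fun n : ℕ => Int.fract (α * n + β) < v), w n - v * ∑ n ∈ I, w n =
      1 / Δ * ∑ n ∈ I, w n * D v Δ (α * n + β) +
      ∑ n ∈ I, w n * ((if Int.fract (α * n + β) < v then (1 : ℝ) else 0) - v -
        D v Δ (α * n + β) / Δ) := by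
    rw [Finset.sum_filter, Finset.mul_sum, Finset.mul_sum, ← Finset.sum_sub_distrib,
      ← Finset.sum_add_distrib]
    refine Finset.sum_congr rfl fun n _ => ?_
    split_ifs <;> field_simp <;> ring
  rw [hmain]
  refine (abs_add_le _ _).trans (add_le_add ?_ ?_)
  · rw [abs_mul, abs_of_pos (by positivity : 0 < 1 / Δ)]
    exact mul_le_mul_of_nonneg_left hD (by positivity)
  · refine (Finset.abs_sum_le_sum_abs _ _).trans ?_
    rw [Finset.mul_sum, Finset.sum_filter]
    refine Finset.sum_le_sum fun n _ => ?_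
    rw [abs_mul]
    have h1 := ind_sub_D (x := α * n + β) hv0 hv1 hΔ hΔ1
    have h2 := mul_le_mul_of_nonneg_left h1 (abs_nonneg (w n))
    refine h2.trans ?_
    split_ifs <;> simp [mul_comm]

end

end Pool.Agent.H58.BR
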