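import Pool.Agent.H28.BR.Stm3

set_option autoImplicit false

/-!
# `S_WEY`: Weyl's criterion with nonnegative weights, sharp arcs
-/

namespace Pool.Agent.H58.BR

open Finset Filter Topology MeasureTheory
open Pool.Agent.Helper112 (ee)
open scoped ComplexConjugate Real

noncomputable section

/-- the weighted mean -/
def Lm (w : ℕ → ℝ) (α β : ℝ) (X : ℕ) (f : C(UnitAddCircle, ℂ)) : ℂ :=
  (∑ n ∈ Ioc 1 X, (w n : ℂ) * f ((α * n + β : ℝ) : UnitAddCircle)) / ((∑ n ∈ Ioc 1 X, w n : ℝ) : ℂ)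

theorem Lm_sub (w : ℕ → ℝ) (α β : ℝ) (X : ℕ) (f g : C(UnitAddCircle, ℂ)) :
    Lm w α β X f - Lm w α β X g = Lm w α β X (f - g) := by
  unfold Lm
  rw [← sub_div, ← sum_sub_distrib]
  congr 1
  refine sum_congr rfl fun n _ => ?_
  rw [ContinuousMap.sub_apply]
  ring

theorem Lm_norm (w : ℕ → ℝ) (hw : ∀ n, 0 ≤ w n) (α β : ℝ) (X : ℕ)
    (hX : 0 < ∑ n ∈ Ioc 1 X, w n) (f : C(UnitAddCircle, ℂ)) : ‖Lm w α β X f‖ ≤ ‖f‖ := by
  unfold Lm
  rw [norm_div, Complex.norm_real, Real.norm_of_nonneg hX.le, div_le_iff₀ hX]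
  calc ‖∑ n ∈ Ioc 1 X, (w n : ℂ) * f ((α * n + β : ℝ) : UnitAddCircle)‖
      ≤ ∑ n ∈ Ioc 1 X, ‖(w n : ℂ) * f ((α * n + β : ℝ) : UnitAddCircle)‖ := norm_sum_le _ _
    _ ≤ ∑ n ∈ Ioc 1 X, ‖f‖ * w n := by
        refine sum_le_sum fun n _ => ?_
        rw [norm_mul, Complex.norm_real, Real.norm_of_nonneg (hw n), mul_comm]
        exact mul_le_mul_of_nonneg_right (f.norm_coe_le_norm _) (hw n)
    _ = _ := (mul_sum _ _ _).symm

/-- the functions whose weighted means converge -/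
def Sm (w : ℕ → ℝ) (α β : ℝ) : Submodule ℂ C(UnitAddCircle, ℂ) where
  carrier := {f | Tendsto (fun X => Lm w α β X f) atTop
    (𝓝 (∫ x, f x ∂(AddCircle.haarAddCircle (T := 1))))}
  zero_mem' := by
    simp [Lm]
  add_mem' := by
    intro f g hf hg
    have h1 : ∫ x, (f + g) x ∂(AddCircle.haarAddCircle (T := 1)) =
        (∫ x, f x ∂(AddCircle.haarAddCircle (T := 1))) +
          ∫ x, g x ∂(AddCircle.haarAddCircle (T := 1)) :=
      integral_add (f.continuous.integrable_of_hasCompactSupport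
        (HasCompactSupport.of_compactSpace _)) (g.continuous.integrable_of_hasCompactSupport
        (HasCompactSupport.of_compactSpace _))
    show Tendsto _ _ _
    rw [h1]
    refine (hf.add hg).congr fun X => ?_
    unfold Lm
    rw [← add_div, ← sum_add_distrib]
    congr 1
    refine sum_congr rfl fun n _ => ?_
    rw [ContinuousMap.add_apply]
    ring
  smul_mem' := by
    intro c f hf
    have h1 : ∫ x, (c • f) x ∂(AddCircle.haarAddCircle (T := 1)) =
        c * ∫ x, f x ∂(AddCircle.haarAddCircle (T := 1)) := integral_const_mul _ _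
    show Tendsto _ _ _
    rw [h1]
    refine (hf.const_mul c).congr fun X => ?_
    unfold Lm
    rw [← mul_div_assoc, mul_sum]
    congr 1
    refine sum_congr rfl fun n _ => ?_
    rw [ContinuousMap.smul_apply, smul_eq_mul]
    ring

theorem Sm_closed (w : ℕ → ℝ) (hw : ∀ n, 0 ≤ w n) (α β : ℝ)
    (hX : ∀ᶠ X : ℕ in atTop, 0 < ∑ n ∈ Ioc 1 X, w n) :
    IsClosed (Sm w α β : Set C(UnitAddCircle, ℂ)) := by
  rw [← closure_subset_iff_isClosed]
  intro f hf
  show Tendsto _ _ _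
  rw [Metric.tendsto_atTop']
  intro ε hε
  obtain ⟨g, hg, hfg⟩ := Metric.mem_closure_iff.1 hf (ε / 3) (by positivity)
  have hg' : Tendsto (fun X => Lm w α β X g) atTop
    (𝓝 (∫ x, g x ∂(AddCircle.haarAddCircle (T := 1)))) := hg
  have h1 := (Metric.tendsto_atTop'.1 hg') (ε / 3) (by positivity)
  obtain ⟨N1, hN1⟩ := h1
  obtain ⟨N2, hN2⟩ := eventually_atTop.1 hX
  refine ⟨max N1 N2, fun X hXn => ?_⟩
  have e1 := hN1 X (lt_of_le_of_lt (le_max_left _ _) hXn)
  have e2 := hN2 X (le_of_lt (lt_of_le_of_lt (le_max_right _ _) hXn))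
  have e3 : dist (Lm w α β X f) (Lm w α β X g) < ε / 3 := by
    rw [dist_eq_norm, Lm_sub]
    exact (Lm_norm w hw α β X e2 _).trans_lt (by rwa [dist_eq_norm] at hfg)
  have e4 : dist (∫ x, g x ∂(AddCircle.haarAddCircle (T := 1)))
      (∫ x, f x ∂(AddCircle.haarAddCircle (T := 1))) < ε / 3 := by
    rw [dist_eq_norm, ← integral_sub (g.continuous.integrable_of_hasCompactSupport
        (HasCompactSupport.of_compactSpace _)) (f.continuous.integrable_of_hasCompactSupport
        (HasCompactSupport.of_compactSpace _))]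
    refine lt_of_le_of_lt (norm_integral_le_of_norm_le_const (C := dist f g)
      (Eventually.of_forall fun x => ?_)) ?_
    · rw [dist_comm, dist_eq_norm]
      exact (g - f).norm_coe_le_norm x
    · simpa using hfg
  calc dist (Lm w α β X f) (∫ x, f x ∂(AddCircle.haarAddCircle (T := 1)))
      ≤ dist (Lm w α β X f) (Lm w α β X g) +
        dist (Lm w α β X g) (∫ x, g x ∂(AddCircle.haarAddCircle (T := 1))) +
        dist (∫ x, g x ∂(AddCircle.haarAddCircle (T := 1)))
          (∫ x, f x ∂(AddCircle.haarAddCircle (T := 1))) := dist_triangle4 _ _ _ _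
    _ < ε := by linarith

theorem four_eq (k : ℤ) (x : ℝ) : fourier k (x : UnitAddCircle) = ee (k * x) := by
  rw [fourier_coe_apply]
  unfold ee
  congr 1
  push_cast
  ring

theorem ee_add (x y : ℝ) : ee (x + y) = ee x * ee y := by
  unfold ee
  rw [← Complex.exp_add]
  congr 1
  push_cast
  ring

theorem ee_neg (x : ℝ) : ee (-x) = conj (ee x) := by
  unfold ee
  rw [← Complex.exp_conj]
  congr 1
  simp only [map_mul, Complex.conj_ofReal, Complex.conj_I, map_ofNat]
  push_cast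
  ring

theorem ee_norm (x : ℝ) : ‖ee x‖ = 1 := by
  unfold ee
  rw [Complex.norm_exp]
  simp

theorem four_mem (w : ℕ → ℝ) (α β : ℝ)
    (hX : ∀ᶠ X : ℕ in atTop, 0 < ∑ n ∈ Ioc 1 X, w n)
    (hh : ∀ h : ℕ, 1 ≤ h → Tendsto (fun X : ℕ => ‖∑ n ∈ Ioc 1 X, (w n : ℂ) * ee (h * α * n)‖ /
      ∑ n ∈ Ioc 1 X, w n) atTop (𝓝 0)) (k : ℤ) : (fourier k : C(UnitAddCircle, ℂ)) ∈ Sm w α β := by
  show Tendsto _ _ _
  by_cases hk : k = 0
  · subst hk
    have h1 : ∫ x, (fourier 0 : C(UnitAddCircle, ℂ)) x ∂(AddCircle.haarAddCircle (T := 1)) = 1 := by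
      simp
    rw [h1]
    refine tendsto_const_nhds.congr' ?_
    filter_upwards [hX] with X h
    unfold Lm
    simp only [fourier_zero, mul_one]
    rw [← Complex.ofReal_sum, div_self]
    exact_mod_cast h.ne'
  · have h1 : ∫ x, (fourier k : C(UnitAddCircle, ℂ)) x ∂(AddCircle.haarAddCircle (T := 1)) = 0 :=
      integral_eq_zero_of_add_right_eq_neg (μ := AddCircle.haarAddCircle)
        (fourier_add_half_inv_index hk one_pos)
    rw [h1, tendsto_zero_iff_norm_tendsto_zero]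
    have hk1 : 1 ≤ k.natAbs := Int.natAbs_pos.2 hk
    refine (hh k.natAbs hk1).congr' ?_
    filter_upwards [hX] with X h
    unfold Lm
    rw [norm_div, Complex.norm_real, Real.norm_of_nonneg h.le]
    congr 1
    have h2 : ∑ n ∈ Ioc 1 X, (w n : ℂ) * (fourier k : C(UnitAddCircle, ℂ))
        ((α * n + β : ℝ) : UnitAddCircle) =
        ee (k * β) * ∑ n ∈ Ioc 1 X, (w n : ℂ) * ee (k * α * n) := by
      rw [mul_sum]
      refine sum_congr rfl fun n _ => ?_
      rw [four_eq]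
      have : (k : ℝ) * (α * n + β) = k * β + k * α * n := by ring
      rw [this, ee_add]
      ring
    rw [h2, norm_mul, ee_norm, one_mul]
    rcases Int.natAbs_eq k with h3 | h3
    · have : ((k.natAbs : ℕ) : ℝ) = (k : ℝ) := by
        rw [← Int.cast_natCast, ← h3]
      rw [this]
    · have h4 : (k : ℝ) = -((k.natAbs : ℕ) : ℝ) := by
        rw [← Int.cast_natCast, ← Int.cast_neg, ← h3]
      have h5 : ∑ n ∈ Ioc 1 X, (w n : ℂ) * ee (k * α * n) =
          conj (∑ n ∈ Ioc 1 X, (w n : ℂ) * ee (k.natAbs * α * n)) := by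
        rw [map_sum]
        refine sum_congr rfl fun n _ => ?_
        rw [map_mul, Complex.conj_ofReal, ← ee_neg, h4]
        congr 2
        ring
      rw [h5, RCLike.norm_conj]

theorem Sm_top (w : ℕ → ℝ) (hw : ∀ n, 0 ≤ w n) (α β : ℝ)
    (hX : ∀ᶠ X : ℕ in atTop, 0 < ∑ n ∈ Ioc 1 X, w n)
    (hh : ∀ h : ℕ, 1 ≤ h → Tendsto (fun X : ℕ => ‖∑ n ∈ Ioc 1 X, (w n : ℂ) * ee (h * α * n)‖ /
      ∑ n ∈ Ioc 1 X, w n) atTop (𝓝 0)) (f : C(UnitAddCircle, ℂ)) : f ∈ Sm w α β := by
  have h1 : (Submodule.span ℂ (Set.range (@fourier 1))).topologicalClosure ≤ Sm w α β := by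
    refine Submodule.topologicalClosure_minimal _ ?_ (Sm_closed w hw α β hX)
    rw [Submodule.span_le]
    rintro _ ⟨k, rfl⟩
    exact four_mem w α β hX hh k
  rw [span_fourier_closure_eq_top] at h1
  exact h1 trivial

/-- the upper bound for an arc -/
theorem upper (w : ℕ → ℝ) (hw : ∀ n, 0 ≤ w n) (α : ℝ)
    (hX : ∀ᶠ X : ℕ in atTop, 0 < ∑ n ∈ Ioc 1 X, w n)
    (hh : ∀ h : ℕ, 1 ≤ h → Tendsto (fun X : ℕ => ‖∑ n ∈ Ioc 1 X, (w n : ℂ) * ee (h * α * n)‖ /
      ∑ n ∈ Ioc 1 X, w n) atTop (𝓝 0)) (β v ε : ℝ) (hv0 : 0 ≤ v) (hv1 : v ≤ 1) (hε : 0 < ε) :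
    ∀ᶠ X : ℕ in atTop, (∑ n ∈ (Ioc 1 X).filter (fun n : ℕ => Int.fract (α * n + β) < v), w n) /
      ∑ n ∈ Ioc 1 X, w n ≤ v + ε := by
  set Cv : Set UnitAddCircle := Metric.closedBall (((v / 2 : ℝ)) : UnitAddCircle) (v / 2) with hCv
  have hvol : (AddCircle.haarAddCircle (T := 1)) Cv = ENNReal.ofReal v := by
    have h1 := AddCircle.volume_closedBall (T := (1:ℝ)) (x := (((v / 2 : ℝ)) : UnitAddCircle))
      (v / 2)
    rw [AddCircle.volume_eq_smul_haarAddCircle] at h1
    rw [Measure.smul_apply, ENNReal.ofReal_one, one_smul] at h1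
    rw [hCv, h1]
    congr 1
    rw [mul_div_cancel₀ _ (two_ne_zero), min_eq_right hv1]
  obtain ⟨U, hU1, hU2, hU3⟩ := Set.exists_isOpen_lt_add (μ := AddCircle.haarAddCircle (T := 1)) Cv
    (by rw [hvol]; exact ENNReal.ofReal_ne_top) (ENNReal.ofReal_pos.2 (half_pos hε)).ne'
  obtain ⟨g, hg0, hg1, hg2⟩ := exists_continuous_zero_one_of_isClosed
    (hU2.isClosed_compl) (Metric.isClosed_closedBall (x := (((v / 2 : ℝ)) : UnitAddCircle))
      (ε := v / 2)) (by
        rw [Set.disjoint_left]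
        intro x hx hx'
        exact hx (hU1 hx'))
  set f : C(UnitAddCircle, ℂ) := ⟨fun x => ((g x : ℝ) : ℂ), by fun_prop⟩ with hf
  have hlim : Tendsto (fun X => Lm w α β X f) atTop
    (𝓝 (∫ x, f x ∂(AddCircle.haarAddCircle (T := 1)))) := Sm_top w hw α β hX hh f
  have hint : ∫ x, f x ∂(AddCircle.haarAddCircle (T := 1)) =
      ((∫ x, g x ∂(AddCircle.haarAddCircle (T := 1)) : ℝ) : ℂ) := integral_ofReal
  have hgi : Integrable (fun x => g x) (AddCircle.haarAddCircle (T := 1)) :=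
    g.continuous.integrable_of_hasCompactSupport (HasCompactSupport.of_compactSpace _)
  have hgle : ∫ x, g x ∂(AddCircle.haarAddCircle (T := 1)) < v + ε := by
    have h1 : ∫ x, g x ∂(AddCircle.haarAddCircle (T := 1)) ≤
        ∫ x, U.indicator (fun _ => (1:ℝ)) x ∂(AddCircle.haarAddCircle (T := 1)) := by
      refine integral_mono hgi ((integrable_const _).indicator hU2.measurableSet) fun x => ?_
      by_cases hx : x ∈ U
      · rw [Set.indicator_of_mem hx]
        exact (hg2 x).2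
      · rw [Set.indicator_of_notMem hx]
        exact (hg0 hx).le
    rw [integral_indicator hU2.measurableSet, setIntegral_const, smul_eq_mul, mul_one] at h1
    refine h1.trans_lt ?_
    rw [hvol, ← ENNReal.ofReal_add hv0 (half_pos hε).le] at hU3
    have h2 : (AddCircle.haarAddCircle (T := 1)).real U < v + ε / 2 := by
      unfold Measure.real
      exact (ENNReal.lt_ofReal_iff_toReal_lt (measure_ne_top _ _)).1 hU3
    linarith
  have hre : Tendsto (fun X => (Lm w α β X f).re) atTop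
      (𝓝 (∫ x, g x ∂(AddCircle.haarAddCircle (T := 1)))) := by
    have h1 := (Complex.continuous_re.tendsto _).comp hlim
    rw [hint, Complex.ofReal_re] at h1
    exact h1
  filter_upwards [hre.eventually (gt_mem_nhds hgle), hX] with X h1 h2
  refine le_trans ?_ h1.le
  have h3 : (Lm w α β X f).re = (∑ n ∈ Ioc 1 X, w n * g ((α * n + β : ℝ) : UnitAddCircle)) /
      ∑ n ∈ Ioc 1 X, w n := by
    unfold Lm
    have h4 : ∑ n ∈ Ioc 1 X, (w n : ℂ) * f ((α * n + β : ℝ) : UnitAddCircle) =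
        ((∑ n ∈ Ioc 1 X, w n * g ((α * n + β : ℝ) : UnitAddCircle) : ℝ) : ℂ) := by
      rw [Complex.ofReal_sum]
      refine sum_congr rfl fun n _ => ?_
      rw [Complex.ofReal_mul]
      rfl
    rw [h4, ← Complex.ofReal_div, Complex.ofReal_re]
  rw [h3]
  refine div_le_div_of_nonneg_right ?_ h2.le
  rw [sum_filter]
  refine sum_le_sum fun n _ => ?_
  split_ifs with hn
  · have hmem : ((α * n + β : ℝ) : UnitAddCircle) ∈ Cv := by
      rw [hCv, Metric.mem_closedBall, dist_eq_norm, ← AddCircle.coe_sub]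
      rw [UnitAddCircle.norm_eq]
      refine (round_le (α * n + β - v / 2) ⌊α * n + β⌋).trans ?_
      have h5 : α * n + β - v / 2 - (⌊α * n + β⌋ : ℝ) = Int.fract (α * n + β) - v / 2 := by
        unfold Int.fract
        ring
      rw [h5, abs_le]
      constructor
      · linarith [Int.fract_nonneg (α * n + β)]
      · linarith
    rw [hg1 hmem]
    simp
  · exact mul_nonneg (hw n) (hg2 _).1

/-- **WEY.** -/
theorem t_WEY : Pool.Agent.H28.BR3.S_WEY := by
  intro w α hw hX hh β v hv0 hv1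
  rw [Metric.tendsto_atTop']
  intro ε hε
  have u1 := upper w hw α hX hh β v (ε / 2) hv0 hv1 (half_pos hε)
  have u2 := upper w hw α hX hh (β - v) (1 - v) (ε / 2) (by linarith) (by linarith) (half_pos hε)
  obtain ⟨N, hN⟩ := eventually_atTop.1 ((u1.and u2).and hX)
  refine ⟨N, fun X hXN => ?_⟩
  obtain ⟨⟨h1, h2⟩, h3⟩ := hN X hXN.le
  rw [Real.dist_eq, abs_lt]
  refine ⟨?_, by linarith⟩
  have h4 : (∑ n ∈ (Ioc 1 X).filter (fun n : ℕ => Int.fract (α * n + β) < v), w n) +
      ∑ n ∈ (Ioc 1 X).filter (fun n : ℕ => ¬ Int.fract (α * n + β) < v), w n =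
        ∑ n ∈ Ioc 1 X, w n := sum_filter_add_sum_filter_not _ _ _
  have h5 : ∑ n ∈ (Ioc 1 X).filter (fun n : ℕ => ¬ Int.fract (α * n + β) < v), w n ≤
      ∑ n ∈ (Ioc 1 X).filter (fun n : ℕ => Int.fract (α * n + (β - v)) < 1 - v), w n := by
    refine sum_le_sum_of_subset_of_nonneg (fun n hn => ?_) fun n _ _ => hw n
    rw [mem_filter] at hn ⊢
    refine ⟨hn.1, ?_⟩
    have h6 : v ≤ Int.fract (α * n + β) := not_lt.1 hn.2
    have h7 : Int.fract (α * n + (β - v)) = Int.fract (α * n + β) - v := by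
      rw [Int.fract_eq_iff]
      refine ⟨by linarith, by linarith [Int.fract_lt_one (α * n + β)], ⌊α * n + β⌋, ?_⟩
      unfold Int.fract
      ring
    rw [h7]
    linarith [Int.fract_lt_one (α * n + β)]
  have h8 : (∑ n ∈ (Ioc 1 X).filter (fun n : ℕ => Int.fract (α * n + β) < v), w n) /
      ∑ n ∈ Ioc 1 X, w n + (∑ n ∈ (Ioc 1 X).filter
        (fun n : ℕ => ¬ Int.fract (α * n + β) < v), w n) / ∑ n ∈ Ioc 1 X, w n = 1 := by
    rw [← add_div, h4, div_self h3.ne']
  have h9 := div_le_div_of_nonneg_right h5 h3.le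
  linarith

end

end Pool.Agent.H58.BR

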