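import Mathlib

set_option autoImplicit false

/-! Project BR4 (helper28), module SQG (helper58): the sum over the odd squarefree numbers prime to `d`. -/

namespace Pool.Agent.H58.BR4

open Finset

noncomputable section

/-! ### 1. the smooth sum -/

theorem log_step {m : ℕ} (hm : 1 ≤ m) {u : ℝ} (hu : (m : ℝ) + 1 ≤ u) :
    1 / ((m : ℝ) + 1) * Real.log (u / ((m : ℝ) + 1)) ^ 2 ≤
      (Real.log (u / m) ^ 3 - Real.log (u / ((m : ℝ) + 1)) ^ 3) / 3 ∧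
    (Real.log (u / m) ^ 3 - Real.log (u / ((m : ℝ) + 1)) ^ 3) / 3 ≤ 1 / (m : ℝ) * Real.log (u / m) ^ 2 := by
  have hm1 : (1 : ℝ) ≤ m := by exact_mod_cast hm
  have hm0 : (0 : ℝ) < m := by linarith
  have hu0 : 0 < u := by linarith
  obtain ⟨a, ha⟩ : ∃ a, a = Real.log (u / m) := ⟨_, rfl⟩
  obtain ⟨b, hb⟩ : ∃ b, b = Real.log (u / ((m : ℝ) + 1)) := ⟨_, rfl⟩
  rw [← ha, ← hb]
  have hb0 : 0 ≤ b := by
    rw [hb]
    apply Real.log_nonneg
    rw [le_div_iff₀ (by linarith)]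
    linarith
  have ht : a - b = Real.log (((m : ℝ) + 1) / m) := by
    rw [ha, hb, Real.log_div hu0.ne' hm0.ne', Real.log_div hu0.ne' (by positivity),
      Real.log_div (by positivity) hm0.ne']
    ring
  have ht1 : a - b ≤ 1 / m := by
    rw [ht]
    refine (Real.log_le_sub_one_of_pos (by positivity)).trans (le_of_eq ?_)
    field_simp
    ring
  have ht2 : 1 / ((m : ℝ) + 1) ≤ a - b := by
    rw [ht]
    refine le_trans (le_of_eq ?_) (Real.one_sub_inv_le_log_of_pos (by positivity))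
    rw [inv_div]
    field_simp
    ring
  have hab : b ≤ a := by
    have : (0 : ℝ) ≤ 1 / ((m : ℝ) + 1) := by positivity
    linarith
  have e : (a ^ 3 - b ^ 3) / 3 = (a - b) * ((a ^ 2 + a * b + b ^ 2) / 3) := by ring
  rw [e]
  have f1 : b ^ 2 ≤ (a ^ 2 + a * b + b ^ 2) / 3 := by nlinarith
  have f2 : (a ^ 2 + a * b + b ^ 2) / 3 ≤ a ^ 2 := by nlinarith
  constructor
  · calc 1 / ((m : ℝ) + 1) * b ^ 2 ≤ (a - b) * b ^ 2 := by gcongr
      _ ≤ _ := mul_le_mul_of_nonneg_left f1 (by linarith)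
  · calc (a - b) * ((a ^ 2 + a * b + b ^ 2) / 3) ≤ (a - b) * a ^ 2 :=
          mul_le_mul_of_nonneg_left f2 (by linarith)
      _ ≤ _ := by gcongr

theorem T_ind {u : ℝ} (N : ℕ) (hN : 1 ≤ N) (hNu : (N : ℝ) ≤ u) :
    (Real.log u ^ 3 - Real.log (u / N) ^ 3) / 3 + 1 / (N : ℝ) * Real.log (u / N) ^ 2 ≤
      ∑ m ∈ Icc 1 N, 1 / (m : ℝ) * Real.log (u / m) ^ 2 ∧
    ∑ m ∈ Icc 1 N, 1 / (m : ℝ) * Real.log (u / m) ^ 2 ≤
      Real.log u ^ 2 + (Real.log u ^ 3 - Real.log (u / N) ^ 3) / 3 := by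
  induction N, hN using Nat.le_induction with
  | base => simp
  | succ N hN ih =>
    push_cast at hNu
    obtain ⟨i1, i2⟩ := ih (by linarith)
    obtain ⟨s1, s2⟩ := log_step hN hNu
    rw [Finset.sum_Icc_succ_top (by omega)]
    push_cast
    constructor <;> linarith

theorem T_bound {u : ℝ} (hu : 1 ≤ u) :
    Real.log u ^ 3 / 3 ≤ ∑ m ∈ Icc 1 ⌊u⌋₊, 1 / (m : ℝ) * Real.log (u / m) ^ 2 ∧
    ∑ m ∈ Icc 1 ⌊u⌋₊, 1 / (m : ℝ) * Real.log (u / m) ^ 2 ≤ Real.log u ^ 2 + Real.log u ^ 3 / 3 := by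
  have h1 : 1 ≤ ⌊u⌋₊ := by
    rw [Nat.one_le_floor_iff]
    exact hu
  have h2 : (⌊u⌋₊ : ℝ) ≤ u := Nat.floor_le (by linarith)
  have h3 : u < ⌊u⌋₊ + 1 := Nat.lt_floor_add_one u
  obtain ⟨i1, i2⟩ := T_ind ⌊u⌋₊ h1 h2
  generalize ⌊u⌋₊ = N at *
  have hN1 : (1 : ℝ) ≤ N := by exact_mod_cast h1
  have hN0 : (0 : ℝ) < N := by linarith
  obtain ⟨a, ha⟩ : ∃ a, a = Real.log (u / N) := ⟨_, rfl⟩
  rw [← ha] at i1 i2
  have ha0 : 0 ≤ a := by
    rw [ha]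
    apply Real.log_nonneg
    rw [le_div_iff₀ hN0]
    linarith
  have ha1 : a ≤ 1 / N := by
    rw [ha]
    refine (Real.log_le_sub_one_of_pos (by positivity)).trans ?_
    rw [div_sub_one hN0.ne']
    gcongr
    linarith
  have h4 : a ^ 3 / 3 ≤ 1 / (N : ℝ) * a ^ 2 := by
    have : a ^ 3 ≤ 1 / (N : ℝ) * a ^ 2 := by
      calc a ^ 3 = a * a ^ 2 := by ring
        _ ≤ _ := by gcongr
    have h5 : 0 ≤ a ^ 3 := by positivity
    linarith
  have h5 : 0 ≤ a ^ 3 := by positivity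
  constructor <;> linarith

/-- the sum over the multiples -/
def TT (G : ℝ) (n : ℕ) : ℝ := ∑ m ∈ Icc 1 (⌊G⌋₊ / n), 1 / (m : ℝ) * Real.log (G / (n * m)) ^ 2

theorem TT_zero {G : ℝ} {n : ℕ} (h : ⌊G⌋₊ < n) : TT G n = 0 := by
  unfold TT
  rw [Nat.div_eq_of_lt h]
  simp

theorem TT_bound {G : ℝ} (hG : 1 ≤ G) {n : ℕ} (hn : 1 ≤ n) :
    |TT G n - Real.log G ^ 3 / 3| ≤ (1 + Real.log G) ^ 2 * (1 + Real.log n) := by
  have hn1 : (1 : ℝ) ≤ n := by exact_mod_cast hn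
  have hn0 : (0 : ℝ) < n := by linarith
  have hl : 0 ≤ Real.log G := Real.log_nonneg hG
  have hk : 0 ≤ Real.log n := Real.log_nonneg hn1
  obtain ⟨l, hl'⟩ : ∃ l, l = Real.log G := ⟨_, rfl⟩
  obtain ⟨k, hk'⟩ : ∃ k, k = Real.log (n : ℝ) := ⟨_, rfl⟩
  rcases le_or_gt (n : ℝ) G with h | h
  · have hu : 1 ≤ G / n := by
      rw [le_div_iff₀ hn0]
      linarith
    have h1 : TT G n = ∑ m ∈ Icc 1 ⌊G / n⌋₊, 1 / (m : ℝ) * Real.log (G / n / m) ^ 2 := by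
      unfold TT
      rw [Nat.floor_div_natCast]
      apply Finset.sum_congr rfl
      intro m _
      rw [div_div]
    obtain ⟨i1, i2⟩ := T_bound hu
    rw [← h1] at i1 i2
    have h2 : Real.log (G / n) = l - k := by
      rw [Real.log_div (by linarith) hn0.ne', hl', hk']
    rw [h2] at i1 i2
    rw [← hl'] at hl
    rw [← hk'] at hk
    rw [← hl', ← hk']
    have hkl : 0 ≤ l - k := by
      rw [← h2]
      exact Real.log_nonneg hu
    have e1 : l ^ 3 / 3 - (l - k) ^ 3 / 3 ≤ k * l ^ 2 := by nlinarith [mul_nonneg hk hkl, mul_nonneg hk hl]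
    have e2 : (l - k) ^ 3 ≤ l ^ 3 := pow_le_pow_left₀ hkl (by linarith) 3
    have e3 : (l - k) ^ 2 ≤ l ^ 2 := pow_le_pow_left₀ hkl (by linarith) 2
    have e4 : (1 + l) ^ 2 * (1 + k) = l ^ 2 + k * l ^ 2 + (1 + 2 * l) * (1 + k) := by ring
    have e5 : 0 ≤ (1 + 2 * l) * (1 + k) := by positivity
    have e6 : 0 ≤ k * l ^ 2 := by positivity
    have e7 : 0 ≤ l ^ 2 := by positivity
    rw [abs_le]
    constructor <;> linarith
  · have h1 : ⌊G⌋₊ < n := by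
      rw [Nat.floor_lt (by linarith)]
      exact h
    rw [TT_zero h1]
    have h2 : l ≤ k := by
      rw [hl', hk']
      exact Real.log_le_log (by linarith) h.le
    rw [← hl'] at hl
    rw [← hk'] at hk
    rw [← hl', ← hk', zero_sub, abs_neg, abs_of_nonneg (by positivity)]
    have e1 : l ^ 3 ≤ l ^ 2 * k := by
      calc l ^ 3 = l ^ 2 * l := by ring
        _ ≤ _ := by gcongr
    have e4 : (1 + l) ^ 2 * (1 + k) = l ^ 2 + l ^ 2 * k + (1 + 2 * l) * (1 + k) := by ring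
    have e5 : 0 ≤ (1 + 2 * l) * (1 + k) := by positivity
    have e6 : 0 ≤ l ^ 2 * k := by positivity
    have e7 : 0 ≤ l ^ 2 := by positivity
    linarith

/-! ### 2. the Moebius function -/

theorem mob_sum (n : ℕ) :
    ∑ g ∈ n.divisors, ((ArithmeticFunction.moebius g : ℤ) : ℝ) = if n = 1 then 1 else 0 := by
  have h := congrArg (fun f : ArithmeticFunction ℤ => f n)
    (ArithmeticFunction.moebius_mul_coe_zeta)
  simp only [ArithmeticFunction.coe_mul_zeta_apply, ArithmeticFunction.one_apply] at h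
  have h2 := congrArg (fun z : ℤ => (z : ℝ)) h
  push_cast at h2
  exact h2

theorem cop_sum (u d : ℕ) (hu : u ≠ 0) : (if u.Coprime d then (1 : ℝ) else 0) =
    ∑ g ∈ u.divisors.filter (fun g => g ∣ d), ((ArithmeticFunction.moebius g : ℤ) : ℝ) := by
  have h1 : u.divisors.filter (fun g => g ∣ d) = (Nat.gcd u d).divisors := by
    ext g
    simp only [mem_filter, Nat.mem_divisors, Nat.dvd_gcd_iff]
    constructor
    · rintro ⟨⟨h1, _⟩, h2⟩
      exact ⟨⟨h1, h2⟩, Nat.gcd_ne_zero_left hu⟩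
    · rintro ⟨⟨h1, h2⟩, _⟩
      exact ⟨⟨h1, hu⟩, h2⟩
  rw [h1, mob_sum]

theorem sq_dvd_iff {s k b : ℕ} (hs : Squarefree s) (hk : k ≠ 0) : b ^ 2 ∣ k ^ 2 * s ↔ b ∣ k := by
  constructor
  · intro h
    have hg : 0 < Nat.gcd b k := Nat.gcd_pos_of_pos_right _ (Nat.pos_of_ne_zero hk)
    obtain ⟨b', k', hbk, hb, hk'⟩ := Nat.exists_coprime b k
    obtain ⟨g, hgg⟩ : ∃ g, g = Nat.gcd b k := ⟨_, rfl⟩
    rw [← hgg] at hb hk' hg
    rw [hb, hk', mul_pow, mul_pow] at h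
    have h1 : b' ^ 2 ∣ k' ^ 2 * s := by
      have h2 : b' ^ 2 * g ^ 2 ∣ (k' ^ 2 * s) * g ^ 2 := by
        have e : k' ^ 2 * g ^ 2 * s = (k' ^ 2 * s) * g ^ 2 := by ring
        rwa [e] at h
      exact Nat.dvd_of_mul_dvd_mul_right (by positivity) h2
    have h3 : b' ^ 2 ∣ s := (Nat.Coprime.pow 2 2 hbk).dvd_of_dvd_mul_left h1
    have h4 : IsUnit b' := hs b' (by rwa [sq] at h3)
    rw [Nat.isUnit_iff] at h4
    rw [hb, hk', h4, one_mul]
    exact Dvd.intro_left k' rfl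
  · intro h
    exact Dvd.dvd.mul_right (pow_dvd_pow_of_dvd h 2) s

theorem sqf_sum {g N : ℕ} (hg : 1 ≤ g) (hN : g ≤ N) :
    ∑ b ∈ (Icc 1 N).filter (fun b => b ^ 2 ∣ g), ((ArithmeticFunction.moebius b : ℤ) : ℝ) =
      if Squarefree g then 1 else 0 := by
  obtain ⟨s, k, hsk, hs⟩ := Nat.sq_mul_squarefree g
  have hk : k ≠ 0 := by
    rintro rfl
    simp at hsk
    omega
  have hs0 : s ≠ 0 := hs.ne_zero
  have hkN : k ≤ N := by
    have h1 : 1 ≤ k := Nat.pos_of_ne_zero hk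
    have h2 : 1 ≤ s := Nat.pos_of_ne_zero hs0
    have h3 : k ≤ k ^ 2 * s := by nlinarith [Nat.mul_le_mul h1 h2]
    omega
  have h1 : (Icc 1 N).filter (fun b => b ^ 2 ∣ g) = k.divisors := by
    ext b
    rw [mem_filter, mem_Icc, Nat.mem_divisors, ← hsk, sq_dvd_iff hs hk]
    constructor
    · rintro ⟨-, h⟩
      exact ⟨h, hk⟩
    · rintro ⟨h, -⟩
      exact ⟨⟨Nat.pos_of_dvd_of_pos h (Nat.pos_of_ne_zero hk), (Nat.le_of_dvd (Nat.pos_of_ne_zero hk) h).trans hkN⟩, h⟩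
  rw [h1, mob_sum]
  have h5 : k = 1 ↔ Squarefree g := by
    constructor
    · intro hk1
      rw [← hsk, hk1]
      simpa using hs
    · intro h
      have h2 : IsUnit k := h k (by rw [← hsk, sq]; exact Dvd.intro _ rfl)
      rwa [Nat.isUnit_iff] at h2
  by_cases h6 : k = 1
  · rw [if_pos h6, if_pos (h5.1 h6)]
  · rw [if_neg h6, if_neg (fun h => h6 (h5.2 h))]

/-- the radical of `2 d` -/
def rd (d : ℕ) : ℕ := ∏ p ∈ (2 * d).primeFactors, p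

theorem rd_pf (d : ℕ) : (rd d).primeFactors = (2 * d).primeFactors :=
  Nat.primeFactors_prod fun p hp => Nat.prime_of_mem_primeFactors hp

theorem rd_dvd (d : ℕ) : rd d ∣ 2 * d := Nat.prod_primeFactors_dvd _

theorem rd_pos (d : ℕ) : rd d ≠ 0 := by
  unfold rd
  rw [Finset.prod_ne_zero_iff]
  exact fun p hp => (Nat.prime_of_mem_primeFactors hp).ne_zero

theorem rd_sqf (d : ℕ) : Squarefree (rd d) := by
  unfold rd
  apply Finset.squarefree_prod_of_pairwise_isCoprime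
  · intro p hp q hq hpq
    exact Nat.coprime_iff_isRelPrime.1
      ((Nat.coprime_primes (Nat.prime_of_mem_primeFactors hp) (Nat.prime_of_mem_primeFactors hq)).2 hpq)
  · intro p hp
    exact (Nat.prime_of_mem_primeFactors hp).prime.squarefree

theorem rd_cop {d g : ℕ} (hd : d ≠ 0) (hg : g ≠ 0) : (rd d).Coprime g ↔ g.Coprime (2 * d) := by
  rw [← Nat.disjoint_primeFactors (rd_pos d) hg, ← Nat.disjoint_primeFactors hg (by omega), rd_pf,
    disjoint_comm]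

/-- the weight -/
def w (d b : ℕ) : ℝ := if b.Coprime (2 * d) then ((ArithmeticFunction.moebius b : ℤ) : ℝ) else 0

theorem w_abs (d b : ℕ) : |w d b| ≤ 1 := by
  unfold w
  split_ifs
  · exact_mod_cast ArithmeticFunction.abs_moebius_le_one
  · simp

theorem w_zero (d : ℕ) : w d 0 = 0 := by
  unfold w
  simp

theorem ind_eq {d g N : ℕ} (hd : Odd d) (hg : 1 ≤ g) (hN : g ≤ N) :
    (if Odd g ∧ Squarefree g ∧ g.Coprime d then (1 : ℝ) else 0) =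
      ∑ δ ∈ (rd d).divisors, ∑ b ∈ Icc 1 N,
        if δ * b ^ 2 ∣ g then ((ArithmeticFunction.moebius δ : ℤ) : ℝ) * w d b else 0 := by
  have hd0 : d ≠ 0 := by
    rintro rfl
    simp at hd
  have hg0 : g ≠ 0 := by omega
  have h1 : ∑ δ ∈ (rd d).divisors, ∑ b ∈ Icc 1 N,
        (if δ * b ^ 2 ∣ g then ((ArithmeticFunction.moebius δ : ℤ) : ℝ) * w d b else 0) =
      (∑ δ ∈ (rd d).divisors.filter (fun δ => δ ∣ g), ((ArithmeticFunction.moebius δ : ℤ) : ℝ)) *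
        ∑ b ∈ (Icc 1 N).filter (fun b => b ^ 2 ∣ g), w d b := by
    rw [Finset.sum_filter, Finset.sum_filter, Finset.sum_mul_sum]
    refine Finset.sum_congr rfl fun δ hδ => Finset.sum_congr rfl fun b hb => ?_
    by_cases hc : b.Coprime (2 * d)
    · have h2 : δ.Coprime (b ^ 2) := by
        apply Nat.Coprime.pow_right
        have h3 : δ ∣ 2 * d := (Nat.dvd_of_mem_divisors hδ).trans (rd_dvd d)
        exact (Nat.Coprime.coprime_dvd_right h3 hc).symm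
      by_cases h4 : δ ∣ g
      · by_cases h5 : b ^ 2 ∣ g
        · rw [if_pos h4, if_pos h5, if_pos (h2.mul_dvd_of_dvd_of_dvd h4 h5)]
        · rw [if_neg h5, mul_zero, if_neg]
          intro h6
          exact h5 ((Dvd.intro_left _ rfl).trans h6)
      · rw [if_neg h4, zero_mul, if_neg]
        intro h6
        exact h4 ((Dvd.intro _ rfl).trans h6)
    · have h2 : w d b = 0 := by
        unfold w
        rw [if_neg hc]
      rw [h2]
      simp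
  rw [h1, ← cop_sum _ _ (rd_pos d)]
  have h5 : (Odd g ∧ Squarefree g ∧ g.Coprime d) ↔ ((rd d).Coprime g ∧ Squarefree g) := by
    rw [rd_cop hd0 hg0, Nat.coprime_mul_iff_right, Nat.coprime_two_right]
    tauto
  by_cases hc : (rd d).Coprime g
  · rw [if_pos hc, one_mul]
    have h3 : ∑ b ∈ (Icc 1 N).filter (fun b => b ^ 2 ∣ g), w d b =
        ∑ b ∈ (Icc 1 N).filter (fun b => b ^ 2 ∣ g), ((ArithmeticFunction.moebius b : ℤ) : ℝ) := by
      refine Finset.sum_congr rfl fun b hb => ?_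
      rw [mem_filter] at hb
      unfold w
      rw [if_pos]
      have h4 : b ∣ g := (Dvd.intro _ (sq b).symm).trans hb.2
      exact Nat.Coprime.coprime_dvd_left h4 ((rd_cop hd0 hg0).1 hc)
    rw [h3, sqf_sum hg hN]
    by_cases h6 : Squarefree g
    · rw [if_pos h6, if_pos (h5.2 ⟨hc, h6⟩)]
    · rw [if_neg h6, if_neg (fun h => h6 (h5.1 h).2)]
  · rw [if_neg hc, zero_mul, if_neg (fun h => hc (h5.1 h).1)]

theorem mult_sum (G : ℝ) (n : ℕ) (hn : 1 ≤ n) :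
    ∑ g ∈ Icc 1 ⌊G⌋₊, (if n ∣ g then 1 / (g : ℝ) * Real.log (G / g) ^ 2 else 0) = 1 / (n : ℝ) * TT G n := by
  unfold TT
  rw [← Finset.sum_filter, Finset.mul_sum]
  symm
  refine Finset.sum_bij (fun m _ => n * m) ?_ ?_ ?_ ?_
  · intro m hm
    rw [mem_Icc] at hm
    rw [mem_filter, mem_Icc]
    refine ⟨⟨Nat.mul_pos hn hm.1, ?_⟩, Dvd.intro _ rfl⟩
    calc n * m ≤ n * (⌊G⌋₊ / n) := Nat.mul_le_mul_left _ hm.2
      _ ≤ ⌊G⌋₊ := Nat.mul_div_le _ _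
  · intro m _ m' _ h
    exact Nat.eq_of_mul_eq_mul_left hn h
  · intro g hg
    rw [mem_filter, mem_Icc] at hg
    obtain ⟨m, rfl⟩ := hg.2
    refine ⟨m, ?_, rfl⟩
    rw [mem_Icc]
    constructor
    · rcases Nat.eq_zero_or_pos m with h | h
      · subst h
        omega
      · exact h
    · rw [Nat.le_div_iff_mul_le hn, mul_comm]
      exact hg.1.2
  · intro m _
    push_cast
    rw [← mul_assoc, one_div_mul_one_div]

/-- the sum of `SQG` -/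
def SG (d : ℕ) (G : ℝ) : ℝ :=
  ∑ g ∈ (Icc 1 ⌊G⌋₊).filter (fun g => Odd g ∧ Squarefree g ∧ g.Coprime d), 1 / (g : ℝ) * Real.log (G / g) ^ 2

theorem SG_eq {d : ℕ} (hd : Odd d) (G : ℝ) : SG d G = ∑ δ ∈ (rd d).divisors,
    ((ArithmeticFunction.moebius δ : ℤ) : ℝ) / δ * ∑' b : ℕ, w d b / (b : ℝ) ^ 2 * TT G (δ * b ^ 2) := by
  unfold SG
  rw [Finset.sum_filter]
  have h1 : ∀ g ∈ Icc 1 ⌊G⌋₊, (if Odd g ∧ Squarefree g ∧ g.Coprime d then 1 / (g : ℝ) * Real.log (G / g) ^ 2 else 0) =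
      ∑ δ ∈ (rd d).divisors, ∑ b ∈ Icc 1 ⌊G⌋₊, ((ArithmeticFunction.moebius δ : ℤ) : ℝ) * w d b *
        if δ * b ^ 2 ∣ g then 1 / (g : ℝ) * Real.log (G / g) ^ 2 else 0 := by
    intro g hg
    rw [mem_Icc] at hg
    have h2 : (if Odd g ∧ Squarefree g ∧ g.Coprime d then 1 / (g : ℝ) * Real.log (G / g) ^ 2 else 0) =
        (if Odd g ∧ Squarefree g ∧ g.Coprime d then (1 : ℝ) else 0) * (1 / (g : ℝ) * Real.log (G / g) ^ 2) := by
      split_ifs <;> simp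
    rw [h2, ind_eq hd hg.1 hg.2, Finset.sum_mul]
    refine Finset.sum_congr rfl fun δ _ => ?_
    rw [Finset.sum_mul]
    refine Finset.sum_congr rfl fun b _ => ?_
    split_ifs <;> simp
  rw [Finset.sum_congr rfl h1, Finset.sum_comm]
  refine Finset.sum_congr rfl fun δ hδ => ?_
  have hδ0 : 1 ≤ δ := Nat.pos_of_mem_divisors hδ
  rw [Finset.sum_comm]
  have h3 : ∑' b : ℕ, w d b / (b : ℝ) ^ 2 * TT G (δ * b ^ 2) =
      ∑ b ∈ Icc 1 ⌊G⌋₊, w d b / (b : ℝ) ^ 2 * TT G (δ * b ^ 2) := by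
    apply tsum_eq_sum
    intro b hb
    rw [mem_Icc, not_and_or] at hb
    rcases hb with hb | hb
    · have : b = 0 := by omega
      subst this
      rw [w_zero]
      simp
    · rw [TT_zero, mul_zero]
      have h4 : b ≤ δ * b ^ 2 := by
        rcases Nat.eq_zero_or_pos b with h | h
        · subst h; simp
        · nlinarith [Nat.mul_le_mul hδ0 h, Nat.mul_le_mul h h]
      omega
  rw [h3, Finset.mul_sum]
  refine Finset.sum_congr rfl fun b hb => ?_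
  rw [mem_Icc] at hb
  rw [← Finset.mul_sum, mult_sum G _ (Nat.mul_pos hδ0 (pow_pos hb.1 2))]
  have hδr : (δ : ℝ) ≠ 0 := by
    have : δ ≠ 0 := by omega
    exact_mod_cast this
  have hbr : (b : ℝ) ≠ 0 := by
    have : b ≠ 0 := by omega
    exact_mod_cast this
  push_cast
  field_simp

/-! ### 3. the constant -/

theorem mu_prod (d : ℕ) : ∑ δ ∈ (rd d).divisors, ((ArithmeticFunction.moebius δ : ℤ) : ℝ) / δ =
    ∏ p ∈ (2 * d).primeFactors, (1 - 1 / (p : ℝ)) := by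
  obtain ⟨f, hf⟩ : ∃ f : ArithmeticFunction ℝ, ∀ n : ℕ, f n = 1 / (n : ℝ) :=
    ⟨⟨fun n => 1 / (n : ℝ), by simp⟩, fun n => rfl⟩
  have hfm : f.IsMultiplicative := by
    refine ⟨by rw [hf]; simp, ?_⟩
    intro m n _
    rw [hf, hf, hf]
    push_cast
    rw [one_div_mul_one_div]
  have h := ArithmeticFunction.IsMultiplicative.prodPrimeFactors_one_sub_of_squarefree f hfm (rd_sqf d)
  rw [rd_pf] at h
  have h1 : ∏ p ∈ (2 * d).primeFactors, (1 - 1 / (p : ℝ)) = ∏ p ∈ (2 * d).primeFactors, (1 - f p) :=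
    Finset.prod_congr rfl fun p _ => by rw [hf]
  rw [h1, h]
  refine Finset.sum_congr rfl fun δ _ => ?_
  rw [hf]
  ring

theorem w_sum {d : ℕ} (hd : d ≠ 0) : (∏ p ∈ (2 * d).primeFactors, (1 - 1 / (p : ℝ) ^ 2)) * (Real.pi ^ 2 / 6) *
    ∑' b : ℕ, w d b / (b : ℝ) ^ 2 = 1 := by
  haveI : NeZero (2 * d) := ⟨by omega⟩
  have hs : 1 < (2 : ℂ).re := by norm_num
  have h1 := DirichletCharacter.LSeries.mul_mu_eq_one (1 : DirichletCharacter ℂ (2 * d)) hs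
  rw [← DirichletCharacter.LFunction_eq_LSeries _ hs] at h1
  have h2 : DirichletCharacter.LFunction (1 : DirichletCharacter ℂ (2 * d)) 2 =
      (∏ p ∈ (2 * d).primeFactors, (1 - (p : ℂ) ^ (-2 : ℂ))) * riemannZeta 2 :=
    DirichletCharacter.LFunctionTrivChar_eq_mul_riemannZeta (by norm_num)
  have h3 : LSeries ((fun n : ℕ => (1 : DirichletCharacter ℂ (2 * d)) (n : ZMod (2 * d))) *
      fun n : ℕ => ((ArithmeticFunction.moebius n : ℤ) : ℂ)) 2 = ((∑' b : ℕ, w d b / (b : ℝ) ^ 2 : ℝ) : ℂ) := by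
    rw [LSeries, Complex.ofReal_tsum]
    apply tsum_congr
    intro b
    rw [LSeries.term_def]
    split_ifs with hb
    · subst hb
      simp
    · have e1 : (b : ℂ) ^ (2 : ℂ) = (b : ℂ) ^ 2 := by
        exact_mod_cast Complex.cpow_natCast (b : ℂ) 2
      rw [e1]
      push_cast
      congr 1
      rw [Pi.mul_apply]
      unfold w
      by_cases hc : b.Coprime (2 * d)
      · rw [if_pos hc, MulChar.one_apply ((ZMod.isUnit_iff_coprime b (2 * d)).2 hc)]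
        simp
      · rw [if_neg hc, MulChar.map_nonunit _ (by rwa [ZMod.isUnit_iff_coprime])]
        simp
  rw [h2, h3, riemannZeta_two] at h1
  have h4 : (((∏ p ∈ (2 * d).primeFactors, (1 - 1 / (p : ℝ) ^ 2)) * (Real.pi ^ 2 / 6) *
      ∑' b : ℕ, w d b / (b : ℝ) ^ 2 : ℝ) : ℂ) = 1 := by
    rw [← h1, Complex.ofReal_mul, Complex.ofReal_mul, Complex.ofReal_prod]
    congr 2
    · refine Finset.prod_congr rfl fun p _ => ?_
      push_cast
      congr 1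
      rw [Complex.cpow_neg, one_div]
      congr 1
      exact_mod_cast (Complex.cpow_natCast (p : ℂ) 2).symm
    · push_cast
      rfl
  exact_mod_cast h4

theorem M_eq {d : ℕ} (hd : Odd d) : (∑ δ ∈ (rd d).divisors, ((ArithmeticFunction.moebius δ : ℤ) : ℝ) / δ) *
    ∑' b : ℕ, w d b / (b : ℝ) ^ 2 = 4 / Real.pi ^ 2 * ∏ p ∈ d.primeFactors, (p : ℝ) / ((p : ℝ) + 1) := by
  have hd0 : d ≠ 0 := by
    rintro rfl
    simp at hd
  have h1 := w_sum hd0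
  rw [mu_prod]
  have h2 : ∏ p ∈ (2 * d).primeFactors, (1 - 1 / (p : ℝ)) =
      (∏ p ∈ (2 * d).primeFactors, (1 - 1 / (p : ℝ) ^ 2)) * ∏ p ∈ (2 * d).primeFactors, (p : ℝ) / ((p : ℝ) + 1) := by
    rw [← Finset.prod_mul_distrib]
    refine Finset.prod_congr rfl fun p hp => ?_
    have hp0 : (p : ℝ) ≠ 0 := by
      have := (Nat.prime_of_mem_primeFactors hp).ne_zero
      exact_mod_cast this
    have hp1 : (p : ℝ) + 1 ≠ 0 := by positivity
    field_simp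
    ring
  have h3 : ∏ p ∈ (2 * d).primeFactors, (p : ℝ) / ((p : ℝ) + 1) =
      2 / 3 * ∏ p ∈ d.primeFactors, (p : ℝ) / ((p : ℝ) + 1) := by
    have e1 : (2 * d).primeFactors = insert 2 d.primeFactors := by
      rw [Nat.primeFactors_mul (by norm_num) hd0, Nat.prime_two.primeFactors]
      rfl
    have e2 : 2 ∉ d.primeFactors := by
      intro h
      have := Nat.dvd_of_mem_primeFactors h
      rw [← even_iff_two_dvd] at this
      exact (Nat.not_even_iff_odd.2 hd) this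
    rw [e1, Finset.prod_insert e2]
    norm_num
  obtain ⟨P, hP⟩ : ∃ P, P = ∏ p ∈ (2 * d).primeFactors, (1 - 1 / (p : ℝ) ^ 2) := ⟨_, rfl⟩
  obtain ⟨S, hS⟩ : ∃ S, S = ∑' b : ℕ, w d b / (b : ℝ) ^ 2 := ⟨_, rfl⟩
  obtain ⟨Q, hQ⟩ : ∃ Q, Q = ∏ p ∈ d.primeFactors, (p : ℝ) / ((p : ℝ) + 1) := ⟨_, rfl⟩
  rw [← hP, ← hS] at h1
  rw [h2, h3, ← hP, ← hS, ← hQ]
  have hpi := Real.pi_ne_zero
  have e3 : P * S = 6 / Real.pi ^ 2 := by
    field_simp
    linarith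
  calc P * (2 / 3 * Q) * S = 2 / 3 * Q * (P * S) := by ring
    _ = _ := by
      rw [e3]
      ring

/-! ### 4. the theorem -/

theorem div_sum {d : ℕ} (hd : Odd d) : ∑ δ ∈ (rd d).divisors, (δ : ℝ) ^ (-(3 / 4) : ℝ) ≤
    2 * ∑ δ ∈ d.divisors, (δ : ℝ) ^ (-(3 / 4) : ℝ) := by
  have hd0 : d ≠ 0 := by
    rintro rfl
    simp at hd
  have h1 : (rd d).divisors ⊆ d.divisors ∪ d.divisors.image (fun k : ℕ => 2 * k) := by
    intro δ hδ
    have h2 : δ ∣ 2 * d := (Nat.dvd_of_mem_divisors hδ).trans (rd_dvd d)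
    rw [mem_union, mem_image]
    rcases Nat.even_or_odd δ with h | h
    · right
      obtain ⟨k, hk⟩ := h.two_dvd
      refine ⟨k, ?_, hk.symm⟩
      rw [Nat.mem_divisors]
      rw [hk] at h2
      exact ⟨Nat.dvd_of_mul_dvd_mul_left (by norm_num) h2, hd0⟩
    · left
      rw [Nat.mem_divisors]
      exact ⟨(Nat.coprime_two_right.2 h).dvd_of_dvd_mul_left h2, hd0⟩
  calc ∑ δ ∈ (rd d).divisors, (δ : ℝ) ^ (-(3 / 4) : ℝ)
      ≤ ∑ δ ∈ d.divisors ∪ d.divisors.image (fun k : ℕ => 2 * k), (δ : ℝ) ^ (-(3 / 4) : ℝ) :=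
        Finset.sum_le_sum_of_subset_of_nonneg h1 fun _ _ _ => by positivity
    _ ≤ ∑ δ ∈ d.divisors, (δ : ℝ) ^ (-(3 / 4) : ℝ) +
        ∑ δ ∈ d.divisors.image (fun k : ℕ => 2 * k), (δ : ℝ) ^ (-(3 / 4) : ℝ) := by
        rw [← Finset.sum_union_inter]
        have : 0 ≤ ∑ δ ∈ d.divisors ∩ d.divisors.image (fun k : ℕ => 2 * k), (δ : ℝ) ^ (-(3 / 4) : ℝ) :=
          Finset.sum_nonneg fun _ _ => by positivity
        linarith
    _ ≤ _ := by
        rw [Finset.sum_image (fun a _ b _ h => Nat.eq_of_mul_eq_mul_left (by norm_num) h)]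
        have : ∑ k ∈ d.divisors, ((2 * k : ℕ) : ℝ) ^ (-(3 / 4) : ℝ) ≤ ∑ δ ∈ d.divisors, (δ : ℝ) ^ (-(3 / 4) : ℝ) := by
          refine Finset.sum_le_sum fun k hk => ?_
          have hk0 : (0 : ℝ) < k := by exact_mod_cast Nat.pos_of_mem_divisors hk
          apply Real.rpow_le_rpow_of_nonpos hk0 _ (by norm_num)
          push_cast
          linarith
        linarith

theorem F_bound {d δ : ℕ} (hδ : 1 ≤ δ) {G : ℝ} (hG : 1 ≤ G) (b : ℕ) :
    ‖w d b / (b : ℝ) ^ 2 * (TT G (δ * b ^ 2) - Real.log G ^ 3 / 3)‖ ≤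
      5 * (1 + Real.log G) ^ 2 * (δ : ℝ) ^ (1 / 4 : ℝ) * (b : ℝ) ^ (-(3 / 2) : ℝ) := by
  have hl : 0 ≤ Real.log G := Real.log_nonneg hG
  rcases Nat.eq_zero_or_pos b with h | h
  · subst h
    rw [w_zero]
    simp
  · have hb1 : (1 : ℝ) ≤ b := by exact_mod_cast h
    have hb0 : (0 : ℝ) < b := by linarith
    have hδ1 : (1 : ℝ) ≤ δ := by exact_mod_cast hδ
    have hδ0 : (0 : ℝ) < δ := by linarith
    have hn : 1 ≤ δ * b ^ 2 := Nat.mul_pos hδ (pow_pos h 2)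
    have hv1 : (1 : ℝ) ≤ ((δ * b ^ 2 : ℕ) : ℝ) := by exact_mod_cast hn
    have h1 := TT_bound hG hn
    have h2 : 1 + Real.log ((δ * b ^ 2 : ℕ) : ℝ) ≤ 5 * ((δ * b ^ 2 : ℕ) : ℝ) ^ (1 / 4 : ℝ) := by
      have e1 := Real.log_le_rpow_div (x := ((δ * b ^ 2 : ℕ) : ℝ)) (by linarith) (by norm_num : (0 : ℝ) < 1 / 4)
      have e2 : (1 : ℝ) ≤ ((δ * b ^ 2 : ℕ) : ℝ) ^ (1 / 4 : ℝ) := Real.one_le_rpow hv1 (by norm_num)
      have e3 : ((δ * b ^ 2 : ℕ) : ℝ) ^ (1 / 4 : ℝ) / (1 / 4) = 4 * ((δ * b ^ 2 : ℕ) : ℝ) ^ (1 / 4 : ℝ) := by ring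
      rw [e3] at e1
      linarith
    have h3 : ((δ * b ^ 2 : ℕ) : ℝ) ^ (1 / 4 : ℝ) = (δ : ℝ) ^ (1 / 4 : ℝ) * (b : ℝ) ^ (1 / 2 : ℝ) := by
      push_cast
      rw [Real.mul_rpow hδ0.le (by positivity), ← Real.rpow_natCast (b : ℝ) 2, ← Real.rpow_mul hb0.le]
      norm_num
    have h4 : 1 / (b : ℝ) ^ 2 * (b : ℝ) ^ (1 / 2 : ℝ) = (b : ℝ) ^ (-(3 / 2) : ℝ) := by
      rw [one_div, ← Real.rpow_natCast (b : ℝ) 2, ← Real.rpow_neg hb0.le, ← Real.rpow_add hb0]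
      norm_num
    rw [norm_mul, Real.norm_eq_abs, Real.norm_eq_abs, abs_div, abs_of_nonneg (by positivity : (0 : ℝ) ≤ (b : ℝ) ^ 2)]
    calc |w d b| / (b : ℝ) ^ 2 * |TT G (δ * b ^ 2) - Real.log G ^ 3 / 3|
        ≤ 1 / (b : ℝ) ^ 2 * ((1 + Real.log G) ^ 2 * (5 * ((δ * b ^ 2 : ℕ) : ℝ) ^ (1 / 4 : ℝ))) := by
          have := w_abs d b
          gcongr
          exact h1.trans (mul_le_mul_of_nonneg_left h2 (by positivity))
      _ = 5 * (1 + Real.log G) ^ 2 * (δ : ℝ) ^ (1 / 4 : ℝ) * (1 / (b : ℝ) ^ 2 * (b : ℝ) ^ (1 / 2 : ℝ)) := by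
          rw [h3]
          ring
      _ = _ := by rw [h4]

theorem sum_z : Summable fun b : ℕ => (b : ℝ) ^ (-(3 / 2) : ℝ) :=
  Real.summable_nat_rpow.2 (by norm_num)

theorem sum_w (d : ℕ) : Summable fun b : ℕ => w d b / (b : ℝ) ^ 2 := by
  refine Summable.of_norm_bounded (g := fun b : ℕ => 1 / (b : ℝ) ^ 2)
    (Real.summable_one_div_nat_pow.2 (by norm_num)) fun b => ?_
  rw [Real.norm_eq_abs, abs_div, abs_of_nonneg (by positivity : (0 : ℝ) ≤ (b : ℝ) ^ 2)]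
  have := w_abs d b
  gcongr

theorem sum_T (d δ : ℕ) (hδ : 1 ≤ δ) (G : ℝ) : Summable fun b : ℕ => w d b / (b : ℝ) ^ 2 * TT G (δ * b ^ 2) := by
  apply summable_of_ne_finset_zero (s := Icc 0 ⌊G⌋₊)
  intro b hb
  rw [mem_Icc, not_and_or] at hb
  rw [TT_zero, mul_zero]
  have h4 : b ≤ δ * b ^ 2 := by
    rcases Nat.eq_zero_or_pos b with h | h
    · subst h; simp
    · nlinarith [Nat.mul_le_mul hδ h, Nat.mul_le_mul h h]
  omega

theorem sqg0 : ∃ C : ℝ, 0 < C ∧ ∀ d : ℕ, Odd d → ∀ G : ℝ, 1 ≤ G →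
    |SG d G - 4 / Real.pi ^ 2 * (∏ p ∈ d.primeFactors, (p : ℝ) / ((p : ℝ) + 1)) * (Real.log G ^ 3 / 3)| ≤
      C * (∑ δ ∈ d.divisors, (δ : ℝ) ^ (-(3 / 4) : ℝ)) * (1 + Real.log G) ^ 2 := by
  obtain ⟨Z, hZ⟩ : ∃ Z : ℝ, Z = ∑' b : ℕ, (b : ℝ) ^ (-(3 / 2) : ℝ) := ⟨_, rfl⟩
  have hZ0 : 0 ≤ Z := by
    rw [hZ]
    exact tsum_nonneg fun b => by positivity
  refine ⟨10 * Z + 1, by positivity, ?_⟩
  intro d hd G hG
  have hl : 0 ≤ Real.log G := Real.log_nonneg hG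
  rw [← M_eq hd, SG_eq hd]
  have h1 : ∑ δ ∈ (rd d).divisors, ((ArithmeticFunction.moebius δ : ℤ) : ℝ) / δ *
        ∑' b : ℕ, w d b / (b : ℝ) ^ 2 * TT G (δ * b ^ 2) -
      (∑ δ ∈ (rd d).divisors, ((ArithmeticFunction.moebius δ : ℤ) : ℝ) / δ) *
        (∑' b : ℕ, w d b / (b : ℝ) ^ 2) * (Real.log G ^ 3 / 3) =
      ∑ δ ∈ (rd d).divisors, ((ArithmeticFunction.moebius δ : ℤ) : ℝ) / δ *
        ∑' b : ℕ, w d b / (b : ℝ) ^ 2 * (TT G (δ * b ^ 2) - Real.log G ^ 3 / 3) := by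
    rw [mul_assoc, Finset.sum_mul, ← Finset.sum_sub_distrib]
    refine Finset.sum_congr rfl fun δ hδ => ?_
    have hδ0 : 1 ≤ δ := Nat.pos_of_mem_divisors hδ
    rw [← mul_sub]
    congr 1
    rw [← tsum_mul_right, ← (sum_T d δ hδ0 G).tsum_sub ((sum_w d).mul_right _)]
    apply tsum_congr
    intro b
    ring
  rw [h1]
  have h2 : ∀ δ ∈ (rd d).divisors, |((ArithmeticFunction.moebius δ : ℤ) : ℝ) / δ *
        ∑' b : ℕ, w d b / (b : ℝ) ^ 2 * (TT G (δ * b ^ 2) - Real.log G ^ 3 / 3)| ≤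
      5 * Z * (1 + Real.log G) ^ 2 * (δ : ℝ) ^ (-(3 / 4) : ℝ) := by
    intro δ hδ
    have hδ0 : 1 ≤ δ := Nat.pos_of_mem_divisors hδ
    have hδr : (0 : ℝ) < δ := by exact_mod_cast hδ0
    have h3 := tsum_of_norm_bounded (sum_z.hasSum.mul_left (5 * (1 + Real.log G) ^ 2 * (δ : ℝ) ^ (1 / 4 : ℝ)))
      (fun b => F_bound (d := d) hδ0 hG b)
    rw [← hZ, Real.norm_eq_abs] at h3
    have h4 : |((ArithmeticFunction.moebius δ : ℤ) : ℝ)| ≤ 1 := by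
      exact_mod_cast ArithmeticFunction.abs_moebius_le_one
    have h5 : 1 / (δ : ℝ) * (δ : ℝ) ^ (1 / 4 : ℝ) = (δ : ℝ) ^ (-(3 / 4) : ℝ) := by
      rw [one_div, ← Real.rpow_neg_one, ← Real.rpow_add hδr]
      norm_num
    rw [abs_mul, abs_div, abs_of_pos hδr]
    calc |((ArithmeticFunction.moebius δ : ℤ) : ℝ)| / δ * |∑' b : ℕ, w d b / (b : ℝ) ^ 2 *
          (TT G (δ * b ^ 2) - Real.log G ^ 3 / 3)|
        ≤ 1 / (δ : ℝ) * (5 * (1 + Real.log G) ^ 2 * (δ : ℝ) ^ (1 / 4 : ℝ) * Z) := by gcongr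
      _ = 5 * Z * (1 + Real.log G) ^ 2 * (1 / (δ : ℝ) * (δ : ℝ) ^ (1 / 4 : ℝ)) := by ring
      _ = _ := by rw [h5]
  have hs0 : 0 ≤ ∑ δ ∈ d.divisors, (δ : ℝ) ^ (-(3 / 4) : ℝ) := Finset.sum_nonneg fun _ _ => by positivity
  calc _ ≤ ∑ δ ∈ (rd d).divisors, |((ArithmeticFunction.moebius δ : ℤ) : ℝ) / δ *
        ∑' b : ℕ, w d b / (b : ℝ) ^ 2 * (TT G (δ * b ^ 2) - Real.log G ^ 3 / 3)| := Finset.abs_sum_le_sum_abs _ _
    _ ≤ ∑ δ ∈ (rd d).divisors, 5 * Z * (1 + Real.log G) ^ 2 * (δ : ℝ) ^ (-(3 / 4) : ℝ) := Finset.sum_le_sum h2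
    _ = 5 * Z * (1 + Real.log G) ^ 2 * ∑ δ ∈ (rd d).divisors, (δ : ℝ) ^ (-(3 / 4) : ℝ) := by rw [Finset.mul_sum]
    _ ≤ 5 * Z * (1 + Real.log G) ^ 2 * (2 * ∑ δ ∈ d.divisors, (δ : ℝ) ^ (-(3 / 4) : ℝ)) :=
        mul_le_mul_of_nonneg_left (div_sum hd) (by positivity)
    _ = 10 * Z * (∑ δ ∈ d.divisors, (δ : ℝ) ^ (-(3 / 4) : ℝ)) * (1 + Real.log G) ^ 2 := by ring
    _ ≤ _ := by
        gcongr
        linarith

end

end Pool.Agent.H58.BR4
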