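import Pool.Agent.H28.BR.Stm5
import Pool.Agent.H58.BR.Sqg0

set_option autoImplicit false

/-! Project BR4 (helper28), module SQG (helper58): the proof is in `Sqg0.lean`. -/

namespace Pool.Agent.H58.BR4

theorem t_SQG : Pool.Agent.H28.BR4.S_SQG := sqg0

end Pool.Agent.H58.BR4
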