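import Pool.Agent.H28.BR.Stm
import Pool.Agent.H58.BR.Trap0

/-! Project BR, module TRAP. -/

set_option autoImplicit false

namespace Pool.Agent.H58.BR

open Pool.Agent.H28.BR

theorem t_TRAP : S_TRAP := by
  intro I w α β v Δ h1 h2 h3 h4
  exact trap I w α β v Δ h1 h2 h3 h4

end Pool.Agent.H58.BR
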